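import Pool.Agent.Run7.h43.SD.Defs
import Pool.Agent.R903.Tensor

/-!
# Projectors onto sets of degrees, and parts generated by correspondences: definitions
-/

set_option autoImplicit false

open CategoryTheory Pool.Agent.H914 Pool.Agent.H914.VarClass.Obj Pool.Agent.R903 Run7.h43.SD

universe u v w

namespace Pool.Agent.Run7.h546.OP

variable {k : Type u} [Field k] {𝒱 : VarClass k}

/-- The class `x` is in `CH^c(X)`. -/
def InCH (C : ChowTheory.{u, v} 𝒱) (X : 𝒱.Obj) (c : ℕ) (x : C.CH X) : Prop :=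
  x ∈ C.gr X c

/-- A correspondence to `Y`: a variety `src`, and a class `cyc` of cycles of codimension `codim` on
`src × Y`. -/
structure CorrTo (C : ChowTheory.{u, v} 𝒱) (Y : 𝒱.Obj) where
  /-- the source -/
  src : 𝒱.Obj
  /-- the codimension -/
  codim : ℕ
  /-- the class -/
  cyc : C.CH (src.prod Y)
  mem : InCH C (src.prod Y) codim cyc

variable {C : ChowTheory.{u, v} 𝒱} {Y : 𝒱.Obj}

/-- The class `a` is in `H^l(X)`. -/
def InH (W : WeilTheory.{u, v, w} C) (X : 𝒱.Obj) (l : ℕ) (a : W.H X) : Prop :=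
  a ∈ W.gr X l

/-- `γ_* a = b`. -/
def Maps (W : WeilTheory.{u, v, w} C) (X Z : 𝒱.Obj) (γ : C.CH (X.prod Z)) (a : W.H X)
    (b : W.H Z) : Prop :=
  W.act γ a = b

/-- The correspondence `α` maps classes of degree `l` to classes of degree `j`:
`j = l + 2 (codim α - dim src)`. -/
def CorrTo.Shifts (α : CorrTo C Y) (l j : ℕ) : Prop :=
  l + 2 * α.codim = j + 2 * α.src.dim

/-- The set `T` of degrees of `src` corresponds to the set `S` of degrees of `Y`: if `α` shifts `l`
to `j` then `l ∈ T` if and only if `j ∈ S`. -/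
def CorrTo.Compatible (α : CorrTo C Y) (T S : Set ℕ) : Prop :=
  ∀ l j, α.Shifts l j → (l ∈ T ↔ j ∈ S)

/-- The correspondence `γ` acts on `H(X)` as the projector onto the sum of the `H^j(X)`,
`j ∈ S`. -/
def IsProjOn (W : WeilTheory.{u, v, w} C) (X : 𝒱.Obj) (S : Set ℕ) (γ : C.CH (X.prod X)) : Prop :=
  ∀ j a, InH W X j a → (j ∈ S → Maps W X X γ a a) ∧ (j ∉ S → Maps W X X γ a 0)

/-- The projector of `H(X)` onto the sum of the `H^j(X)` for `j ∈ S` is induced by a cycle with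
rational coefficients of codimension `dim X` on `X × X`. -/
def ProjAlg (W : WeilTheory.{u, v, w} C) (X : 𝒱.Obj) (S : Set ℕ) : Prop :=
  ∃ π, InCH C (X.prod X) X.dim π ∧ IsProjOn W X S π

/-- **The sign conjecture** `C⁺(X)`. -/
def SignConj (W : WeilTheory.{u, v, w} C) (X : 𝒱.Obj) : Prop := ProjAlg W X {j | Even j}

/-- Numerically trivial classes of codimension `q` on `X × X'` act as zero on `H^l(X)` for
`l ∈ S`. -/
def HomNumOn (W : WeilTheory.{u, v, w} C) (X X' : 𝒱.Obj) (q : ℕ) (S : Set ℕ) : Prop :=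
  ∀ γ, InCH C (X.prod X') q γ → NumTrivial C γ → ∀ l ∈ S, ∀ a, InH W X l a → Maps W X X' γ a 0

/-- The class `y` is `α_* a` with `a ∈ H^l(X)`, where `α : X → Y` shifts the degree `l` to `j`. -/
def CorrTo.Hits (W : WeilTheory.{u, v, w} C) (α : CorrTo C Y) (j : ℕ) (y : W.H Y) : Prop :=
  ∃ l a, InH W α.src l a ∧ α.Shifts l j ∧ Maps W α.src Y α.cyc a y

/-- `H^j(Y)` is generated by the correspondences in `𝒜`: it is contained in the span, over the
coefficient field of `W`, of the images in `H^j(Y)` of the correspondences in `𝒜`. -/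
def IsGen (W : WeilTheory.{u, v, w} C) (𝒜 : Set (CorrTo C Y)) (j : ℕ) : Prop :=
  ∀ y, InH W Y j y → y ∈ Submodule.span W.K {z | ∃ α ∈ 𝒜, α.Hits W j z}

/-- The transpose of a correspondence: the pull-back under the exchange of the factors. -/
noncomputable def back (C : ChowTheory.{u, v} 𝒱) (X Z : 𝒱.Obj) (γ : C.CH (X.prod Z)) :
    C.CH (Z.prod X) :=
  C.pull (lift (snd Z X) (fst Z X)) γ

/-- The correspondence `γ` is the composition `Y → X' → X → Y` of the transpose of `α' : X' → Y`, a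
correspondence `δ : X' → X` and `α : X → Y`, and has codimension `dim Y`. -/
def IsThrough (C : ChowTheory.{u, v} 𝒱) {Y : 𝒱.Obj} (α' α : CorrTo C Y) (γ : C.CH (Y.prod Y)) :
    Prop :=
  ∃ r δ, InCH C (α'.src.prod α.src) r δ ∧
    α'.codim + r + α.codim = α'.src.dim + α.src.dim + Y.dim ∧
      γ = C.comp (C.comp (back C α'.src Y α'.cyc) δ) α.cyc

/-- The span, over `ℚ`, of the compositions `Y → X' → X → Y` of codimension `dim Y` of the transpose
of some `α' : X' → Y` in `𝒜'`, any correspondence `δ : X' → X`, and some `α : X → Y` in `𝒜`. -/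
noncomputable def through (C : ChowTheory.{u, v} 𝒱) {Y : 𝒱.Obj} (𝒜' 𝒜 : Set (CorrTo C Y)) :
    Submodule ℚ (C.CH (Y.prod Y)) :=
  Submodule.span ℚ {γ | ∃ α' ∈ 𝒜', ∃ α ∈ 𝒜, IsThrough C α' α γ}

/-- Numerically trivial classes on `X × X'` of codimension `codim α + codim α' - dim Y` act as zero
on `H^l(X)` for `l ∈ T`. -/
def DFor (W : WeilTheory.{u, v, w} C) (α α' : CorrTo C Y) (T : Set ℕ) : Prop :=
  ∀ q, q + Y.dim = α.codim + α'.codim → HomNumOn W α.src α'.src q T

/-- The hypotheses on the sources: for `α : X → Y` in `𝒜` the projector of `H(X)` onto a set `T` of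
degrees which corresponds to `S` is algebraic, and for `α' : X' → Y` in `𝒜'` numerically trivial
classes of codimension `codim α + codim α' - dim Y` on `X × X'` act as zero on `H^l(X)` for `l` in
`T`. -/
def IsBaseOn (W : WeilTheory.{u, v, w} C) (S : Set ℕ) (𝒜 𝒜' : Set (CorrTo C Y)) : Prop :=
  ∀ α ∈ 𝒜, ∃ T, α.Compatible T S ∧ ProjAlg W α.src T ∧ ∀ α' ∈ 𝒜', DFor W α α' T

/-- For all `j ∈ S`: `H^j(Y)` is generated by `𝒜` and `H^(2d-j)(Y)` by `𝒜'`, where
`d = dim Y`. -/
def GenBoth (W : WeilTheory.{u, v, w} C) (S : Set ℕ) (𝒜 𝒜' : Set (CorrTo C Y)) : Prop :=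
  ∀ j ∈ S, j ≤ 2 * Y.dim → IsGen W 𝒜 j ∧ IsGen W 𝒜' (2 * Y.dim - j)

/-- One of `H^j(Y)` and `H^(2d-j)(Y)` is generated by `𝒜`, and the other one by `𝒜'`. -/
def GenPair (W : WeilTheory.{u, v, w} C) (j : ℕ) (𝒜 𝒜' : Set (CorrTo C Y)) : Prop :=
  (IsGen W 𝒜 j ∧ IsGen W 𝒜' (2 * Y.dim - j)) ∨ (IsGen W 𝒜 (2 * Y.dim - j) ∧ IsGen W 𝒜' j)

/-- The set `S` is symmetric, and for every `j ∈ S` one of `H^j(Y)` and `H^(2d-j)(Y)` is generated by
`𝒜`, and the other one by `𝒜'`, for two sets `𝒜` and `𝒜'` which satisfy the hypotheses on the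
sources, and which may depend on `j`. -/
def Covered (W : WeilTheory.{u, v, w} C) (Y : 𝒱.Obj) (S : Set ℕ) : Prop :=
  ∀ j ∈ S, j ≤ 2 * Y.dim → 2 * Y.dim - j ∈ S ∧ ∃ 𝒜 𝒜' : Set (CorrTo C Y),
    IsBaseOn W S 𝒜 𝒜' ∧ GenPair W j 𝒜 𝒜'

/-- The degrees with the parity of `e`. -/
def par (e : ℕ) : Set ℕ := {j | j % 2 = e % 2}

/-- The sign conjecture holds for the sources of `𝒜`, and for `α : X → Y` in `𝒜` and `α' : X' → Y` in
`𝒜'` numerically trivial classes of codimension `codim α + codim α' - dim Y` on `X × X'` act as zero on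
`H^l(X)` for the `l` with the parity of `e`. -/
def SignBase (W : WeilTheory.{u, v, w} C) (e : ℕ) (𝒜 𝒜' : Set (CorrTo C Y)) : Prop :=
  ∀ α ∈ 𝒜, SignConj W α.src ∧ ∀ α' ∈ 𝒜', DFor W α α' (par e)

/-- For all `j > dim Y` whose parity is opposite to the parity of `dim Y`, all classes in `H^j(Y)` are
of the form `α_* a`, with `a` in the cohomology of the source `X` of `α`. By the weak Lefschetz theorem
this is true for the graph of the inclusion `X → Y` of a smooth hyperplane section. -/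
def SurjAbove (W : WeilTheory.{u, v, w} C) (Y : 𝒱.Obj) (α : CorrTo C Y) : Prop :=
  ∀ j ∈ par (Y.dim + 1), Y.dim < j → ∀ y, InH W Y j y → α.Hits W j y

end Pool.Agent.Run7.h546.OP
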