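import Pool.Agent.Run7.h43.SD.RelMain
import Pool.Agent.Run7.h546.OP.Defs

/-!
# Projectors onto sets of degrees from generation by correspondences
-/

set_option autoImplicit false

open CategoryTheory CategoryTheory.Limits AlgebraicGeometry Finset
open Pool.Agent.H914 hiding IsProjector
open Pool.Agent.H914.VarClass Pool.Agent.H914.VarClass.Obj Pool.Agent.R903
open Pool.Agent.Run7.h192.Murre
open Run7.h43.SD (NumTrivial trC trC_comm trC_comp trC_eq sgn act_mem' act_zero_or tr_mul_act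
  numTrivial_of_homog exists_repr exists_coord numTrivial_iff tr_homog trC_eq_zero)

universe u v w

namespace Pool.Agent.Run7.h546.OP

variable {k : Type u} [Field k] {𝒱 : VarClass k} {C : ChowTheory.{u, v} 𝒱}
  {W : WeilTheory.{u, v, w} C} {X Y Z : 𝒱.Obj} {𝒜' 𝒜 : Set (CorrTo C Y)} {S : Set ℕ} {j : ℕ}

variable (W) in
/-- Correspondences of degree zero which are nilpotent of order three in cohomology have trace
zero. -/
lemma trC_eq_zero3 {γ : C.CH (X.prod X)} (hγ : γ ∈ C.gr (X.prod X) X.dim)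
    (h : ∀ a, W.act γ (W.act γ (W.act γ a)) = 0) : trC γ = 0 := by
  have : Module.Finite W.K (W.H X) := (W.isPoincareAlgebra X).finite
  have hc : ∀ a, W.act γ (sgn W X a) = sgn W X (W.act γ a) := by
    intro a
    refine gr_induction (W.isInternal X)
      (p := fun a => W.act γ (sgn W X a) = sgn W X (W.act γ a)) ?_ ?_ a
    · intro i a ha
      rw [sgn, scal_apply _ _ ha, map_smul, scal_apply _ _ (act_mem0 W hγ ha)]
    · intro a b ha hb
      simp only [map_add, ha, hb]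
  have h1 : IsNilpotent (sgn W X ∘ₗ W.act γ : Module.End W.K (W.H X)) := by
    refine ⟨3, ?_⟩
    ext a
    rw [pow_succ, pow_two, Module.End.mul_apply, Module.End.mul_apply, LinearMap.comp_apply,
      LinearMap.comp_apply, LinearMap.comp_apply, hc, hc, hc, h, map_zero,
      map_zero, map_zero, LinearMap.zero_apply]
  have h2 := (LinearMap.isNilpotent_trace_of_isNilpotent h1).eq_zero
  rw [← trC_eq] at h2
  exact_mod_cast h2

lemma IsProjOn.mem {P : C.CH (X.prod X)} (hP : IsProjOn W X S P) {l : ℕ} {a : W.H X}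
    (ha : a ∈ W.gr X l) : W.act P a = a ∧ l ∈ S ∨ W.act P a = 0 := by
  by_cases hl : l ∈ S
  · exact Or.inl ⟨(hP l a ha).1 hl, hl⟩
  · exact Or.inr ((hP l a ha).2 hl)

variable (W) in
/-- The part of `H^j(Y)` which is generated by the correspondences in `𝒜`. -/
noncomputable def genPart (𝒜 : Set (CorrTo C Y)) (j : ℕ) : Submodule W.K (W.H Y) :=
  Submodule.span W.K {y | ∃ α ∈ 𝒜, α.Hits W j y}

lemma genPart_le : genPart W 𝒜 j ≤ W.gr Y j := by
  refine Submodule.span_le.2 ?_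
  rintro _ ⟨α, -, l, a, ha, hl, rfl⟩
  exact act_mem' W α.mem hl ha

variable (W) in
/-- the compositions `Y → X' → (X, π) → Y`, where `π` is the projector onto the degrees which are
shifted to `S` -/
noncomputable def tS (S : Set ℕ) (𝒜' 𝒜 : Set (CorrTo C Y)) : Submodule ℚ (C.CH (Y.prod Y)) :=
  Submodule.span ℚ {γ | ∃ α' ∈ 𝒜', ∃ α ∈ 𝒜, ∃ r, ∃ δ ∈ C.gr (α'.src.prod α.src) r,
    ∃ P ∈ C.gr (α.src.prod α.src) α.src.dim, (∃ T, α.Compatible T S ∧
      IsProjOn W α.src T P) ∧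
    α'.codim + r + α.codim = α'.src.dim + α.src.dim + Y.dim ∧
      γ = C.comp (C.comp (C.comp (C.transp α'.cyc) δ) P) α.cyc}

lemma back_eq (γ : C.CH (X.prod Z)) : back C X Z γ = C.transp γ := rfl

lemma tS_le : tS W S 𝒜' 𝒜 ≤ through C 𝒜' 𝒜 := by
  refine Submodule.span_mono ?_
  rintro _ ⟨α', hα', α, hα, r, δ, hδ, P, hP, hP', hr, rfl⟩
  exact ⟨α', hα', α, hα, r, C.comp δ P, C.comp_mem hδ hP rfl, hr, by
    rw [C.comp_assoc _ δ P, back_eq]⟩

lemma comp_eq_zero {α : C.CH (X.prod Y)} {β : C.CH (Y.prod Z)} {p q : ℕ}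
    (hα : α ∈ C.gr (X.prod Y) p) (hβ : β ∈ C.gr (Y.prod Z) q) (h : p + q < Y.dim) :
    C.comp α β = 0 := by
  rw [ChowTheory.comp]
  exact C.push_eq_zero _ (C.mul_mem (C.pull_mem _ hα) (C.pull_mem _ hβ))
    (by simp only [dim_prod]; omega)

lemma through_mem {γ : C.CH (Y.prod Y)} (hγ : γ ∈ through C 𝒜' 𝒜) :
    γ ∈ C.gr (Y.prod Y) Y.dim := by
  refine (Submodule.span_le (p := C.gr (Y.prod Y) Y.dim)).2 ?_ hγ
  rintro _ ⟨α', -, α, -, r, δ, hδ, hr, rfl⟩
  have h1 := C.transp_mem α'.mem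
  by_cases hef : α'.src.dim ≤ α'.codim + r
  · exact C.comp_mem (C.comp_mem h1 hδ (r := α'.codim + r - α'.src.dim) (by omega)) α.mem
      (by omega)
  · rw [back_eq, comp_eq_zero h1 hδ (by omega), C.zero_comp]
    exact Submodule.zero_mem _

lemma tS_mem {γ : C.CH (Y.prod Y)} (hγ : γ ∈ tS W S 𝒜' 𝒜) : γ ∈ C.gr (Y.prod Y) Y.dim :=
  through_mem (tS_le hγ)

/-- the image is generated, and the degrees outside `S` are killed -/
lemma tS_map {t : C.CH (Y.prod Y)} (ht : t ∈ tS W S 𝒜' 𝒜) {l : ℕ} {w : W.H Y}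
    (hw : w ∈ W.gr Y l) : (l ∈ S → W.act t w ∈ genPart W 𝒜 l) ∧ (l ∉ S → W.act t w = 0) := by
  refine Submodule.span_induction
    (p := fun t _ => (l ∈ S → W.act t w ∈ genPart W 𝒜 l) ∧ (l ∉ S → W.act t w = 0)) ?_ ?_ ?_ ?_ ht
  · rintro _ ⟨α', hα', α, hα, r, δ, hδ, P, hP, hP', hr, rfl⟩
    rw [W.act_comp _ α.mem, W.act_comp _ hP, W.act_comp _ hδ]
    rcases act_zero_or (C.transp_mem α'.mem) hw with h1 | ⟨m, hm, hm'⟩
    · rw [h1, map_zero, map_zero, map_zero]
      exact ⟨fun _ => Submodule.zero_mem _, fun _ => rfl⟩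
    rcases act_zero_or hδ hm with h1 | ⟨n, hn, hn'⟩
    · rw [h1, map_zero, map_zero]
      exact ⟨fun _ => Submodule.zero_mem _, fun _ => rfl⟩
    have hs : α.Shifts n l := by
      change n + 2 * α.codim = l + 2 * α.src.dim
      omega
    obtain ⟨T, hT, hP'⟩ := hP'
    rcases hP'.mem hn with ⟨h1, h2⟩ | h1
    · rw [h1]
      exact ⟨fun _ => Submodule.subset_span ⟨α, hα, n, _, hn, hs, rfl⟩,
        fun h => absurd ((hT n l hs).1 h2) h⟩
    · rw [h1, map_zero]
      exact ⟨fun _ => Submodule.zero_mem _, fun _ => rfl⟩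
  · rw [W.act_zero, LinearMap.zero_apply]
    exact ⟨fun _ => Submodule.zero_mem _, fun _ => rfl⟩
  · intro x y _ _ hx hy
    rw [W.act_add, LinearMap.add_apply]
    exact ⟨fun h => Submodule.add_mem _ (hx.1 h) (hy.1 h), fun h => by
      rw [hx.2 h, hy.2 h, add_zero]⟩
  · intro q x _ hx
    rw [W.act_smul, LinearMap.smul_apply]
    exact ⟨fun h => Submodule.smul_mem _ _ (hx.1 h), fun h => by rw [hx.2 h, smul_zero]⟩

/-- classes which are orthogonal to the part generated by `𝒜'` are killed -/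
lemma tS_kill {t : C.CH (Y.prod Y)} (ht : t ∈ tS W S 𝒜' 𝒜) {l l' : ℕ} (hl : l + l' = 2 * Y.dim)
    {u : W.H Y} (hu : u ∈ W.gr Y l) (h : ∀ z ∈ genPart W 𝒜' l', W.tr Y (u * z) = 0) :
    W.act t u = 0 := by
  refine Submodule.span_induction (p := fun t _ => W.act t u = 0) ?_ ?_ ?_ ?_ ht
  · rintro _ ⟨α', hα', α, hα, r, δ, hδ, P, hP, hP', hr, rfl⟩
    rw [W.act_comp _ α.mem, W.act_comp _ hP, W.act_comp _ hδ]
    have h1 : W.act (C.transp α'.cyc) u = 0 := by
      rw [W.act_transp]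
      apply W.nondeg
      intro b
      refine gr_induction (W.isInternal α'.src)
        (p := fun b => W.tr α'.src (W.coact α'.cyc u * b) = 0) ?_ ?_ b
      · intro m b hb
        rw [← tr_mul_act α'.mem hu]
        rcases act_zero_or α'.mem hb with h2 | ⟨n, hn, hn'⟩
        · rw [h2, mul_zero, map_zero]
        · by_cases h3 : n = l'
          · subst h3
            exact h _ (Submodule.subset_span ⟨α', hα', m, b, hb, hn', rfl⟩)
          · exact W.tr_eq_zero (W.mul_mem hu hn) (by omega)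
      · intro a b ha hb
        rw [mul_add, map_add, ha, hb, add_zero]
    rw [h1, map_zero, map_zero, map_zero]
  · rw [W.act_zero, LinearMap.zero_apply]
  · intro x y _ _ hx hy
    rw [W.act_add, LinearMap.add_apply, hx, hy, add_zero]
  · intro q x _ hx
    rw [W.act_smul, LinearMap.smul_apply, hx, smul_zero]

/-- The main lemma. -/
lemma orth (hX : IsBaseOn W S 𝒜 𝒜') {j j' : ℕ} (hj : j ∈ S)
    {x : C.CH (Y.prod Y)} (hx : x ∈ C.gr (Y.prod Y) Y.dim)
    (hx' : ∀ t ∈ tS W S 𝒜' 𝒜, trC (C.comp x t) = 0)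
    {y : W.H Y} (hy : y ∈ genPart W 𝒜 j) {z : W.H Y} (hz : z ∈ genPart W 𝒜' j') :
    W.tr Y (W.act x y * z) = 0 := by
  refine Submodule.span_induction (p := fun y _ => W.tr Y (W.act x y * z) = 0)
    ?_ ?_ ?_ ?_ hy
  swap
  · rw [map_zero, zero_mul, map_zero]
  swap
  · intro y y' _ _ h h'
    rw [map_add, add_mul, map_add, h, h', add_zero]
  swap
  · intro q y _ h
    rw [map_smul, smul_mul_assoc, map_smul, h, smul_zero]
  rintro _ ⟨α, hα, i, a, ha, hi, rfl⟩
  refine Submodule.span_induction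
    (p := fun z _ => W.tr Y (W.act x (W.act α.cyc a) * z) = 0) ?_ ?_ ?_ ?_ hz
  swap
  · rw [mul_zero, map_zero]
  swap
  · intro y y' _ _ h h'
    rw [mul_add, map_add, h, h', add_zero]
  swap
  · intro q y _ h
    rw [mul_smul_comm, map_smul, h, smul_zero]
  rintro _ ⟨α', hα', l, a', ha', hl, rfl⟩
  have hyj : W.act x (W.act α.cyc a) ∈ W.gr Y j := act_mem0 W hx (act_mem' W α.mem hi ha)
  obtain ⟨T, hT, ⟨P, hP, hP'⟩, hD⟩ := hX α hα
  have hβ : C.transp α'.cyc ∈ C.gr (Y.prod α'.src) α'.codim := C.transp_mem α'.mem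
  have hPα : C.comp P α.cyc ∈ C.gr (α.src.prod Y) α.codim := C.comp_mem hP α.mem (by omega)
  have hPx : C.comp (C.comp P α.cyc) x ∈ C.gr (α.src.prod Y) α.codim :=
    C.comp_mem hPα hx rfl
  have hid : i ∈ T := (hT i j hi).2 hj
  have key : W.act (C.transp α'.cyc) (W.act x (W.act α.cyc a)) = 0 := by
    have h1 : W.act (C.comp (C.comp (C.comp P α.cyc) x) (C.transp α'.cyc)) a =
        W.act (C.transp α'.cyc) (W.act x (W.act α.cyc a)) := by
      rw [W.act_comp _ hβ, W.act_comp _ hx, W.act_comp _ α.mem, (hP' i a ha).1 hid]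
    rw [← h1]
    by_cases hc : Y.dim ≤ α.codim + α'.codim
    swap
    · rw [comp_eq_zero hPx hβ (by omega), W.act_zero, LinearMap.zero_apply]
    obtain ⟨q, hq⟩ := Nat.exists_eq_add_of_le hc
    have hmem : C.comp (C.comp (C.comp P α.cyc) x) (C.transp α'.cyc) ∈
        C.gr (α.src.prod α'.src) q := C.comp_mem hPx hβ (by omega)
    refine hD α' hα' q (by omega) _ hmem ?_ i hid a ha
    refine numTrivial_of_homog W hmem fun r hr δ hδ => ?_
    have h2 : trC (C.comp (C.comp (C.comp (C.comp P α.cyc) x) (C.transp α'.cyc)) δ) =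
        trC (C.comp x (C.comp (C.comp (C.comp (C.transp α'.cyc) δ) P) α.cyc)) := by
      rw [C.comp_assoc, C.comp_assoc, trC_comm W]
      simp only [C.comp_assoc]
    rw [h2]
    exact hx' _ (Submodule.subset_span ⟨α', hα', α, hα, r, δ, hδ, P, hP, ⟨T, hT, hP'⟩,
      by omega, rfl⟩)
  rw [tr_mul_act α'.mem hyj, ← W.act_transp, key, zero_mul, map_zero]

/-- radical elements are nilpotent of order three -/
lemma rad_nil (hX : IsBaseOn W S 𝒜 𝒜') {b : C.CH (Y.prod Y)} (hb : b ∈ tS W S 𝒜' 𝒜)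
    (h : ∀ t ∈ tS W S 𝒜' 𝒜, trC (C.comp b t) = 0) (w : W.H Y) :
    W.act b (W.act b (W.act b w)) = 0 := by
  refine gr_induction (W.isInternal Y) (p := fun w => W.act b (W.act b (W.act b w)) = 0) ?_ ?_ w
  · intro l w hw
    by_cases hl2 : l ≤ 2 * Y.dim
    swap
    · rw [W.gr_eq_bot Y l (by omega), Submodule.mem_bot] at hw
      rw [hw, map_zero, map_zero, map_zero]
    by_cases hl : l ∈ S
    swap
    · rw [(tS_map hb hw).2 hl, map_zero, map_zero]
    have h1 := (tS_map hb hw).1 hl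
    exact tS_kill hb (l' := 2 * Y.dim - l) (by omega) (act_mem0 W (tS_mem hb) (genPart_le h1))
      fun z hz => orth hX hl (tS_mem hb) h h1 hz
  · intro a b ha hb
    rw [map_add, map_add, map_add, ha, hb, add_zero]

/-- **Existence.** There is a combination `e` of compositions through the classes which kills the
degrees outside `S`, such that `e y - y` is orthogonal to the part generated by `𝒜'` for `y` in the
part generated by `𝒜`. -/
theorem exists_unit (hX : IsBaseOn W S 𝒜 𝒜') :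
    ∃ e ∈ tS W S 𝒜' 𝒜, ∀ j ∈ S, ∀ j', ∀ y ∈ genPart W 𝒜 j,
      ∀ z ∈ genPart W 𝒜' j', W.tr Y ((W.act e y - y) * z) = 0 := by
  set A : Submodule ℚ (R0 C Y) := (tS W S 𝒜' 𝒜).comap ud with hA
  obtain ⟨n, f, hf⟩ := exists_coord W Y
  let T : R0 C Y →ₗ[ℚ] ℚ := (C.deg (Y.prod Y)) ∘ₗ (LinearMap.mulLeft ℚ (C.diagC Y)) ∘ₗ ud
  let B : A →ₗ[ℚ] A →ₗ[ℚ] ℚ :=
    LinearMap.mk₂ ℚ (fun a b => T ((b : R0 C Y) * a))
      (fun a a' b => by rw [Submodule.coe_add, mul_add, map_add])
      (fun q a b => by rw [Submodule.coe_smul, mul_smul_comm, map_smul])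
      (fun a b b' => by rw [Submodule.coe_add, add_mul, map_add])
      (fun q a b => by rw [Submodule.coe_smul, smul_mul_assoc, map_smul])
  have hB : ∀ a b : A, B a b = trC (C.comp (ud (a : R0 C Y)) (ud (b : R0 C Y))) := fun a b => rfl
  obtain ⟨e, he⟩ := exists_repr B (fun a b => by rw [hB, hB, trC_comm W])
    (f ∘ₗ A.subtype) (fun a ha => by
      ext b
      have h1 : NumTrivial C (ud (a : R0 C Y)) := hf _ ha
      rw [numTrivial_iff W] at h1
      exact h1 _) (T ∘ₗ A.subtype) (fun a ha => by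
      have ha2 : ud (a : R0 C Y) ∈ tS W S 𝒜' 𝒜 := a.2
      have h1 : ∀ t ∈ tS W S 𝒜' 𝒜, trC (C.comp (ud (a : R0 C Y)) t) = 0 := fun t ht =>
        LinearMap.congr_fun ha ⟨elt t (tS_mem ht), ht⟩
      exact trC_eq_zero3 W (ud_mem _) fun w => rad_nil hX ha2 h1 w)
  have he2 : ud (e : R0 C Y) ∈ tS W S 𝒜' 𝒜 := e.2
  refine ⟨ud (e : R0 C Y), he2, fun j hj j' y hy z hz => ?_⟩
  have h3 := orth (x := ud (e : R0 C Y) - C.diagC Y) hX hj
      (Submodule.sub_mem _ (ud_mem _) (C.diagC_mem Y)) (fun s hs => ?_) hy hz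
  · rwa [W.act_sub, LinearMap.sub_apply, W.act_diagC] at h3
  · have h4 := he ⟨elt s (tS_mem hs), hs⟩
    rw [hB] at h4
    have h5 : C.comp (ud (e : R0 C Y) - C.diagC Y) s = C.comp (ud (e : R0 C Y)) s - s := by
      rw [sub_eq_add_neg, C.add_comp, ← neg_one_smul ℚ (C.diagC Y), C.smul_comp, C.diagC_comp,
        neg_one_smul, ← sub_eq_add_neg]
    rw [h5, trC, mul_sub, map_sub, sub_eq_zero]
    exact h4

/-- the case where `H^j(Y)` and the dual degree are generated -/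
lemma unit_id {e : C.CH (Y.prod Y)} (he : e ∈ C.gr (Y.prod Y) Y.dim)
    (h : ∀ j ∈ S, ∀ j', ∀ y ∈ genPart W 𝒜 j,
      ∀ z ∈ genPart W 𝒜' j', W.tr Y ((W.act e y - y) * z) = 0) {j : ℕ} (hj : j ∈ S)
    (hjj : j ≤ 2 * Y.dim) (hg : IsGen W 𝒜 j) (hg' : IsGen W 𝒜' (2 * Y.dim - j)) {y : W.H Y}
    (hy : y ∈ W.gr Y j) : W.act e y = y := by
  rw [← sub_eq_zero]
  exact tr_homog hjj (Submodule.sub_mem _ (act_mem0 W he hy) hy)
    fun z hz => h j hj _ y (hg y hy) z (hg' z hz)

/-- the image of a composition through the classes is generated -/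
lemma through_map {γ : C.CH (Y.prod Y)} (hγ : γ ∈ through C 𝒜' 𝒜) {l : ℕ} {w : W.H Y}
    (hw : w ∈ W.gr Y l) : W.act γ w ∈ genPart W 𝒜 l := by
  refine Submodule.span_induction (p := fun γ _ => W.act γ w ∈ genPart W 𝒜 l) ?_ ?_ ?_ ?_ hγ
  · rintro _ ⟨α', hα', α, hα, r, δ, hδ, hr, rfl⟩
    rw [W.act_comp _ α.mem, W.act_comp _ hδ, back_eq]
    rcases act_zero_or (C.transp_mem α'.mem) hw with h1 | ⟨m, hm, hm'⟩
    · rw [h1, map_zero, map_zero]
      exact Submodule.zero_mem _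
    rcases act_zero_or hδ hm with h1 | ⟨n, hn, hn'⟩
    · rw [h1, map_zero]
      exact Submodule.zero_mem _
    exact Submodule.subset_span ⟨α, hα, n, _, hn, by
      change n + 2 * α.codim = l + 2 * α.src.dim
      omega, rfl⟩
  · rw [W.act_zero, LinearMap.zero_apply]
    exact Submodule.zero_mem _
  · intro x y _ _ hx hy
    rw [W.act_add, LinearMap.add_apply]
    exact Submodule.add_mem _ hx hy
  · intro q x _ hx
    rw [W.act_smul, LinearMap.smul_apply]
    exact Submodule.smul_mem _ _ hx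

lemma transp_add (x y : C.CH (X.prod Y)) : C.transp (x + y) = C.transp x + C.transp y := by
  rw [ChowTheory.transp, map_add]; rfl

lemma transp_smul (q : ℚ) (x : C.CH (X.prod Y)) : C.transp (q • x) = q • C.transp x := by
  rw [ChowTheory.transp, map_smul]; rfl

lemma through_transp {γ : C.CH (Y.prod Y)} (hγ : γ ∈ through C 𝒜' 𝒜) :
    C.transp γ ∈ through C 𝒜 𝒜' := by
  refine Submodule.span_induction (p := fun γ _ => C.transp γ ∈ through C 𝒜 𝒜') ?_ ?_ ?_ ?_ hγ
  · rintro _ ⟨α', hα', α, hα, r, δ, hδ, hr, rfl⟩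
    rw [back_eq, ← C.comp_transp, ← C.comp_transp, transp_transp, ← C.comp_assoc]
    exact Submodule.subset_span ⟨α, hα, α', hα', r, C.transp δ, C.transp_mem hδ, by omega, rfl⟩
  · rw [C.transp_zero]
    exact Submodule.zero_mem _
  · intro x y _ _ hx hy
    rw [transp_add]
    exact Submodule.add_mem _ hx hy
  · intro q x _ hx
    rw [transp_smul]
    exact Submodule.smul_mem _ _ hx

/-- the transpose is the adjoint -/
lemma tr_act_transp {e : C.CH (Y.prod Y)} (he : e ∈ C.gr (Y.prod Y) Y.dim) {l : ℕ} {y : W.H Y}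
    (hy : y ∈ W.gr Y l) (a : W.H Y) :
    W.tr Y (W.act (C.transp e) y * a) = W.tr Y (y * W.act e a) := by
  rw [W.act_transp, tr_mul_act he hy]

/-- the transpose acts as the identity if the correspondence does in the dual degree -/
lemma transp_id {e : C.CH (Y.prod Y)} (he : e ∈ C.gr (Y.prod Y) Y.dim) {j : ℕ}
    (hj : j ≤ 2 * Y.dim) (h : ∀ z ∈ W.gr Y (2 * Y.dim - j), W.act e z = z) {y : W.H Y}
    (hy : y ∈ W.gr Y j) : W.act (C.transp e) y = y := by
  rw [← sub_eq_zero]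
  refine tr_homog hj (Submodule.sub_mem _ (act_mem0 W (C.transp_mem he) hy) hy) fun z hz => ?_
  rw [sub_mul, map_sub, tr_act_transp he hy, h z hz, sub_self]

/-- the transpose acts as zero if the correspondence does in the dual degree -/
lemma transp_zero' {e : C.CH (Y.prod Y)} (he : e ∈ C.gr (Y.prod Y) Y.dim) {j : ℕ}
    (hj : j ≤ 2 * Y.dim) (h : ∀ z ∈ W.gr Y (2 * Y.dim - j), W.act e z = 0) {y : W.H Y}
    (hy : y ∈ W.gr Y j) : W.act (C.transp e) y = 0 := by
  refine tr_homog hj (act_mem0 W (C.transp_mem he) hy) fun z hz => ?_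
  rw [tr_act_transp he hy, h z hz, mul_zero, map_zero]

/-- **The criterion.** -/
theorem projector_iff (hX : IsBaseOn W S 𝒜 𝒜') :
    (∃ π ∈ through C 𝒜' 𝒜, IsProjOn W Y S π) ↔ GenBoth W S 𝒜 𝒜' := by
  constructor
  · rintro ⟨π, hπ, h⟩ j hj hjd
    refine ⟨fun y hy => ?_, fun y hy => ?_⟩
    · have h1 := through_map (W := W) hπ hy
      rwa [show W.act π y = y from (h j y hy).1 hj] at h1
    · have h1 := through_map (W := W) (through_transp hπ) hy
      rwa [transp_id (through_mem hπ) (by omega) (fun z hz => ?_) hy] at h1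
      rw [show 2 * Y.dim - (2 * Y.dim - j) = j by omega] at hz
      exact (h j z hz).1 hj
  · intro h
    obtain ⟨e, he, he'⟩ := exists_unit hX
    refine ⟨e, tS_le he, fun j a ha => ⟨fun hj => ?_, (tS_map he ha).2⟩⟩
    by_cases hjd : j ≤ 2 * Y.dim
    · exact unit_id (tS_mem he) he' hj hjd (h j hj hjd).1 (h j hj hjd).2 ha
    · have ha' : a ∈ W.gr Y j := ha
      rw [W.gr_eq_bot Y j (by omega), Submodule.mem_bot] at ha'
      change W.act e a = a
      rw [ha', map_zero]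

/-- the operators which are the identity outside `S` and zero on some degrees of `S` -/
lemma exists_partial (h : ∀ j ∈ S, j ≤ 2 * Y.dim → ∃ e ∈ C.gr (Y.prod Y) Y.dim,
    (∀ a ∈ W.gr Y j, W.act e a = a) ∧ ∀ l ∉ S, ∀ a ∈ W.gr Y l, W.act e a = 0) (n : ℕ) :
    ∃ g ∈ C.gr (Y.prod Y) Y.dim, (∀ l ∉ S, ∀ a ∈ W.gr Y l, W.act g a = a) ∧
      ∀ l ∈ S, l < n → ∀ a ∈ W.gr Y l, W.act g a = 0 := by
  induction n with
  | zero =>
    exact ⟨C.diagC Y, C.diagC_mem Y, fun l _ a _ => by rw [W.act_diagC],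
      fun l _ hl => absurd hl (by omega)⟩
  | succ n ih =>
    obtain ⟨g, hg, h1, h2⟩ := ih
    by_cases hn : n ∈ S ∧ n ≤ 2 * Y.dim
    · obtain ⟨e, he, h3, h4⟩ := h n hn.1 hn.2
      have hde : C.diagC Y - e ∈ C.gr (Y.prod Y) Y.dim :=
        Submodule.sub_mem _ (C.diagC_mem Y) he
      refine ⟨C.comp g (C.diagC Y - e), C.comp_mem hg hde rfl, fun l hl a ha => ?_,
        fun l hl hln a ha => ?_⟩
      · rw [W.act_comp _ hde, h1 l hl a ha, W.act_sub, LinearMap.sub_apply, W.act_diagC,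
          h4 l hl a ha, sub_zero]
      · rw [W.act_comp _ hde]
        rcases Nat.lt_succ_iff_lt_or_eq.1 hln with h5 | h5
        · rw [h2 l hl h5 a ha, map_zero]
        · subst h5
          rw [W.act_sub, LinearMap.sub_apply, W.act_diagC, h3 _ (act_mem0 W hg ha), sub_self]
    · refine ⟨g, hg, h1, fun l hl hln a ha => ?_⟩
      rcases Nat.lt_succ_iff_lt_or_eq.1 hln with h5 | h5
      · exact h2 l hl h5 a ha
      · subst h5
        rw [W.gr_eq_bot Y l (by by_contra h6; exact hn ⟨hl, by omega⟩), Submodule.mem_bot] at ha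
        rw [ha, map_zero]

/-- **Local to global.** -/
lemma proj_of_local (h : ∀ j ∈ S, j ≤ 2 * Y.dim → ∃ e ∈ C.gr (Y.prod Y) Y.dim,
    (∀ a ∈ W.gr Y j, W.act e a = a) ∧ ∀ l ∉ S, ∀ a ∈ W.gr Y l, W.act e a = 0) :
    ProjAlg W Y S := by
  obtain ⟨g, hg, h1, h2⟩ := exists_partial h (2 * Y.dim + 1)
  refine ⟨C.diagC Y - g, Submodule.sub_mem _ (C.diagC_mem Y) hg, fun j a ha => ?_⟩
  have ha' : a ∈ W.gr Y j := ha
  constructor
  · intro hj
    change W.act _ _ = _
    rw [W.act_sub, LinearMap.sub_apply, W.act_diagC]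
    by_cases hjd : j ≤ 2 * Y.dim
    · rw [h2 j hj (by omega) a ha, sub_zero]
    · rw [W.gr_eq_bot Y j (by omega), Submodule.mem_bot] at ha'
      rw [ha', map_zero, sub_zero]
  · intro hj
    change W.act _ _ = _
    rw [W.act_sub, LinearMap.sub_apply, W.act_diagC, h1 j hj a ha, sub_self]

/-- **Each degree has its own sets of correspondences.** -/
theorem proj_of_covered (h : Covered W Y S) : ProjAlg W Y S := by
  refine proj_of_local fun j hj hjd => ?_
  obtain ⟨hj', 𝒜, 𝒜', hX, hg⟩ := h j hj hjd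
  obtain ⟨e, he, he'⟩ := exists_unit hX
  have hm := tS_mem he
  rcases hg with ⟨h1, h2⟩ | ⟨h1, h2⟩
  · exact ⟨e, hm, fun a ha => unit_id hm he' hj hjd h1 h2 ha, fun l hl a ha => (tS_map he ha).2 hl⟩
  · refine ⟨C.transp e, C.transp_mem hm, fun a ha => ?_, fun l hl a ha => ?_⟩
    · refine transp_id hm hjd (fun z hz => ?_) ha
      refine unit_id hm he' hj' (by omega) h1 ?_ hz
      rwa [show 2 * Y.dim - (2 * Y.dim - j) = j by omega]
    · by_cases hld : l ≤ 2 * Y.dim
      · refine transp_zero' hm hld (fun z hz => ?_) ha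
        by_cases h5 : 2 * Y.dim - l ∈ S
        · have h6 := (h _ h5 (by omega)).1
          rw [show 2 * Y.dim - (2 * Y.dim - l) = l by omega] at h6
          exact absurd h6 hl
        · exact (tS_map he hz).2 h5
      · rw [W.gr_eq_bot Y l (by omega), Submodule.mem_bot] at ha
        rw [ha, map_zero]

/-! ### The sign conjecture -/

lemma par_eq (e : ℕ) : par e = {j | Even j} ∨ par e = {j | Even j}ᶜ := by
  rcases Nat.even_or_odd e with h | h
  · left
    ext j
    simp only [par, Set.mem_ofPred_eq, Nat.even_iff]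
    have := Nat.even_iff.1 h
    omega
  · right
    ext j
    simp only [par, Set.mem_ofPred_eq, Set.mem_compl_iff, Nat.even_iff]
    have := Nat.odd_iff.1 h
    omega

lemma ProjAlg.compl (h : ProjAlg W X S) : ProjAlg W X Sᶜ := by
  obtain ⟨π, hπ, h⟩ := h
  refine ⟨C.diagC X - π, Submodule.sub_mem _ (C.diagC_mem X) hπ, fun j a ha => ?_⟩
  refine ⟨fun hj => ?_, fun hj => ?_⟩
  · change W.act _ _ = _
    rw [W.act_sub, LinearMap.sub_apply, W.act_diagC,
      show W.act π a = 0 from (h j a ha).2 hj, sub_zero]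
  · change W.act _ _ = _
    rw [W.act_sub, LinearMap.sub_apply, W.act_diagC,
      show W.act π a = a from (h j a ha).1 (by simpa using hj), sub_self]

lemma sign_iff (e : ℕ) : SignConj W X ↔ ProjAlg W X (par e) := by
  rcases par_eq e with h | h
  · rw [h]; rfl
  · rw [h]
    refine ⟨fun h => h.compl, fun h => ?_⟩
    have h1 := h.compl
    rwa [compl_compl] at h1

lemma par_compat (e : ℕ) (α : CorrTo C Y) : α.Compatible (par e) (par e) := by
  intro l j h
  have h1 : l + 2 * α.codim = j + 2 * α.src.dim := h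
  simp only [par, Set.mem_ofPred_eq]
  omega

lemma SignBase.base {e : ℕ} (h : SignBase W e 𝒜 𝒜') : IsBaseOn W (par e) 𝒜 𝒜' :=
  fun α hα => ⟨par e, par_compat e α, (sign_iff e).1 (h α hα).1, (h α hα).2⟩

/-- **The sign conjecture from one parity on one side of the middle.** -/
theorem sign_of_gen (e : ℕ)
    (h : ∀ j ∈ par e, Y.dim ≤ j → j ≤ 2 * Y.dim →
      ∃ 𝒜 𝒜' : Set (CorrTo C Y), SignBase W e 𝒜 𝒜' ∧ GenPair W j 𝒜 𝒜') :
    SignConj W Y := by
  rw [sign_iff e]
  refine proj_of_covered fun j hj hjd => ?_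
  have hj' : j % 2 = e % 2 := hj
  have hj2 : 2 * Y.dim - j ∈ par e := by
    change (2 * Y.dim - j) % 2 = e % 2
    omega
  refine ⟨hj2, ?_⟩
  rcases Nat.lt_or_ge j Y.dim with h1 | h1
  · obtain ⟨𝒜, 𝒜', h2, h3⟩ := h _ hj2 (by omega) (by omega)
    refine ⟨𝒜, 𝒜', h2.base, ?_⟩
    rw [GenPair, show 2 * Y.dim - (2 * Y.dim - j) = j by omega] at h3
    rcases h3 with h3 | h3
    · exact Or.inr h3
    · exact Or.inl h3
  · obtain ⟨𝒜, 𝒜', h2, h3⟩ := h j hj h1 hjd
    exact ⟨𝒜, 𝒜', h2.base, h3⟩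

/-- the diagonal -/
noncomputable def diagTo (C : ChowTheory.{u, v} 𝒱) (Y : 𝒱.Obj) : CorrTo C Y :=
  ⟨Y, Y.dim, C.diagC Y, C.diagC_mem Y⟩

lemma isGen_diag (j : ℕ) : IsGen W {diagTo C Y} j := fun y hy =>
  Submodule.subset_span ⟨_, rfl, j, y, hy, rfl, W.act_diagC y⟩

/-- **Weak Lefschetz.** -/
theorem sign_of_surj {α : CorrTo C Y} (hf : SurjAbove W Y α) (hC : SignConj W α.src)
    (hD : HomNumOn W α.src Y α.codim (par (Y.dim + 1))) : SignConj W Y := by
  refine sign_of_gen (Y.dim + 1) fun j hj hjd hjd' =>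
    ⟨{α}, {diagTo C Y}, ?_, Or.inl ⟨fun y hy => ?_, isGen_diag _⟩⟩
  · rintro _ rfl
    refine ⟨hC, ?_⟩
    rintro _ rfl q hq
    have h1 : q + Y.dim = CorrTo.codim _ + Y.dim := hq
    obtain rfl : q = CorrTo.codim _ := Nat.add_right_cancel h1
    exact hD
  · have hj' : j % 2 = (Y.dim + 1) % 2 := hj
    exact Submodule.subset_span ⟨_, rfl, hf j hj (by omega) y hy⟩

end Pool.Agent.Run7.h546.OP
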